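import Pool.Agent.Y477.IW.KFin

/-!
Homomorphisms between the finite subgroups of a group which are given by conjugation in each finite
quotient.
-/

set_option autoImplicit false

namespace Pool.Agent.K6.H64.FQ

open Pool.Agent.Y477.IW CategoryTheory

/-- The homomorphism `c : D → G`, `D` a subgroup of `G`, is given in each finite quotient `G/U` by
the conjugation with an element of `G` (which may depend on `U`). -/
def LocConj {G : Type} [Group G] {D : Subgroup G} (c : D →* G) : Prop :=
  ∀ U : Subgroup G, U.Normal → U.FiniteIndex →
    ∃ g : G, ∀ d : D, (c d)⁻¹ * (g * d * g⁻¹) ∈ U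

/-- The subgroup of the colimit `Col L G` of the groups `L(H)` over the finite subgroups `H` of `G`
which is generated by the differences `[K, c_*(x)] - [H, x]`, where `c : H → K` is a homomorphism
between finite subgroups which is given by conjugation in each finite quotient of `G`. -/
def locRel (L : GrpCat.{0} ⥤ AddCommGrpCat.{0}) (G : Type) [Group G] :
    AddSubgroup (Col L (GrpCat.of G)) :=
  AddSubgroup.closure {w | ∃ (H K : FS (GrpCat.of G)) (c : H.1 →* K.1) (x : L.obj H.grp),
    LocConj (K.1.subtype.comp c) ∧
      w = Col.mk K ((L.map (GrpCat.ofHom c)).hom x) - Col.mk H x}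

end Pool.Agent.K6.H64.FQ
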