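import Pool.Agent.K6.H64.FQ.Main

/-!
The kernel of the map from the colimit of the groups `K₁(R[F])`, `F ≤ G` finite, to `K₁(R[G])`.
-/

set_option autoImplicit false
set_option linter.unusedSectionVars false

namespace Pool.Agent.K6.H64.FQ

open Pool.Agent.Y477.IW CategoryTheory
open scoped Classical Pointwise

section Theta

variable {R G Q : Type} [Ring R] [Group G] [Group Q] [Finite Q] {p : G →* Q}
  {E : Set (FS (GrpCat.of G))}

theorem stab_pull {P : Type} [Group P] (C : Subgroup Q) (f : P →* Q) (g : Q) :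
    stab ((std Q C).pull f) (QuotientGroup.mk g) = (MulAut.conj g • C).comap f := by
  ext x
  rw [Subgroup.mem_comap, Subgroup.mem_pointwise_smul_iff_inv_smul_mem, ← map_inv]
  change f x • (QuotientGroup.mk g : Q ⧸ C) = QuotientGroup.mk g ↔ g⁻¹ * f x * g⁻¹⁻¹ ∈ C
  change (QuotientGroup.mk (f x * g) : Q ⧸ C) = QuotientGroup.mk g ↔ _
  rw [eq_comm, QuotientGroup.eq, inv_inv, mul_assoc]

theorem ww_top (F : FS (GrpCat.of G)) [Finite F.1] (x : KR R F.1) :
    ww R F x ⊤ = cl R F x := by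
  unfold ww
  rw [res_top]

theorem map_mem_SS (F : FS (GrpCat.of G)) (hF : F ∈ E) (K : Subgroup F.1) :
    K.map (p.comp F.1.subtype) ∈ SS p E := by
  refine ⟨F, hF, 1, ?_⟩
  rintro _ ⟨k, hk, rfl⟩
  exact ⟨k.1, k.2, by simp⟩

theorem key2 (hp : Sep p E) (d : Dat p E) (F : FS (GrpCat.of G)) (hF : F ∈ E) [Finite F.1]
    (x : KR R F.1) : Nat.card F.1 • theta R d (kh R (p.comp F.1.subtype) x) =
      (Nat.card Q * Nat.card F.1) • cl R F x := by
  let _ : Fintype Q := Fintype.ofFinite Q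
  let f : F.1 →* Q := p.comp F.1.subtype
  let hh : Subgroup F.1 → VV R G := fun D => Nat.card D • ww R F x D
  have h1 : ∀ C ∈ Finset.univ.filter (fun C : Subgroup Q => C ∈ SS p E),
      Nat.card F.1 • (lam (SS p E) C • (Nat.card C • cl R (d.F C) (kh R (d.κ C) (res R C
        (kh R f x))))) =
      ∑ g : Q, lam (SS p E) C • hh ((MulAut.conj g • C).comap f) := by
    intro C hC
    let _ : Fintype (Q ⧸ C) := Fintype.ofFinite _
    rw [smul_comm, smul_comm (Nat.card F.1) (Nat.card C),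
      key1 hp d F hF x C (Finset.mem_filter.1 hC).2, ← Finset.smul_sum]
    congr 1
    rw [← sum_cosets C (fun a => Nat.card (stab ((std Q C).pull (p.comp F.1.subtype)) a) •
        ww R F x (stab ((std Q C).pull (p.comp F.1.subtype)) a))]
    apply Finset.sum_congr rfl
    intro g _
    rw [stab_pull]
  rw [theta_apply, Finset.smul_sum, Finset.sum_congr rfl h1, Finset.sum_comm]
  have h2 : ∀ g : Q, ∑ C ∈ Finset.univ.filter (fun C : Subgroup Q => C ∈ SS p E),
      lam (SS p E) C • hh ((MulAut.conj g • C).comap f) = Nat.card F.1 • cl R F x := by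
    intro g
    rw [sum_conj (SS p E) SS_conj g (fun C => hh (C.comap f)),
      sum_comap f (SS p E) (map_mem_SS F hF) hh]
    change Nat.card (⊤ : Subgroup F.1) • ww R F x ⊤ = _
    rw [ww_top, Subgroup.card_top]
  rw [Finset.sum_congr rfl (fun g _ => h2 g), Finset.sum_const, smul_smul, Finset.card_univ,
    ← Nat.card_eq_fintype_card (α := Q)]

end Theta

section Exists

variable {G : Type} [Group G]

theorem sep_aux {F F' : FS (GrpCat.of G)} (U : Subgroup G) [U.Normal] {D : Subgroup F.1}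
    (ψ : D →* F'.1) (q : G ⧸ U)
    (hq : ∀ d : D, QuotientGroup.mk' U (ψ d : G) =
      q * QuotientGroup.mk' U ((d : F.1) : G) * q⁻¹) (V : Subgroup G) (hV : U ≤ V) :
    ∃ g : G, ∀ d : D, (ψ d : G)⁻¹ * (g * ((d : F.1) : G) * g⁻¹) ∈ V := by
  obtain ⟨g, hg⟩ := QuotientGroup.mk'_surjective U q
  refine ⟨g, fun d => hV ?_⟩
  have h6 := hq d
  rw [← hg, ← map_mul, ← map_inv, ← map_mul] at h6
  exact QuotientGroup.eq.1 h6

theorem exists_sep (hG : ∀ g : G, IsOfFinOrder g → g ≠ 1 →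
    ∃ U : Subgroup G, U.Normal ∧ U.FiniteIndex ∧ g ∉ U) (E : Finset (FS (GrpCat.of G))) :
    ∃ (U : Subgroup G) (_ : U.Normal), U.FiniteIndex ∧
      Sep (QuotientGroup.mk' U) (E : Set (FS (GrpCat.of G))) := by
  have hfin : ∀ F : FS (GrpCat.of G), Finite F.1 := fun F => F.2
  have h1 : ∀ x : (Σ F : {F // F ∈ E}, F.1.1), ∃ U : Subgroup G, U.Normal ∧ U.FiniteIndex ∧
      ((x.2 : G) ≠ 1 → (x.2 : G) ∉ U) := by
    intro x
    by_cases hx : (x.2 : G) = 1
    · exact ⟨⊤, inferInstance, inferInstance, fun h => absurd hx h⟩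
    · have := hfin x.1.1
      have ho : IsOfFinOrder (x.2 : G) := x.1.1.1.subtype.isOfFinOrder (isOfFinOrder_of_finite x.2)
      obtain ⟨U, a, b, c⟩ := hG _ ho hx
      exact ⟨U, a, b, fun _ => c⟩
  have h2 : ∀ x : (Σ F : {F // F ∈ E} × {F // F ∈ E}, Σ D : Subgroup F.1.1.1, (D →* F.2.1.1)),
      ∃ U : Subgroup G, U.Normal ∧ U.FiniteIndex ∧
        ((∀ U : Subgroup G, U.Normal → U.FiniteIndex →
          ∃ g : G, ∀ d : x.2.1, (x.2.2 d : G)⁻¹ * (g * ((d : x.1.1.1.1) : G) * g⁻¹) ∈ U) ∨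
        ¬ ∃ g : G, ∀ d : x.2.1, (x.2.2 d : G)⁻¹ * (g * ((d : x.1.1.1.1) : G) * g⁻¹) ∈ U) := by
    intro x
    by_cases hx : ∀ U : Subgroup G, U.Normal → U.FiniteIndex →
          ∃ g : G, ∀ d : x.2.1, (x.2.2 d : G)⁻¹ * (g * ((d : x.1.1.1.1) : G) * g⁻¹) ∈ U
    · exact ⟨⊤, inferInstance, inferInstance, Or.inl hx⟩
    · have hx' : ∃ U : Subgroup G, U.Normal ∧ U.FiniteIndex ∧
          ¬ ∃ g : G, ∀ d : x.2.1, (x.2.2 d : G)⁻¹ * (g * ((d : x.1.1.1.1) : G) * g⁻¹) ∈ U := by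
        by_contra hcon
        apply hx
        intro U a b
        by_contra hc
        exact hcon ⟨U, a, b, hc⟩
      obtain ⟨U, a, b, c⟩ := hx'
      exact ⟨U, a, b, Or.inr c⟩
  choose U1 a1 b1 c1 using h1
  choose U2 a2 b2 c2 using h2
  have i1 : Finite (Σ F : {F // F ∈ E}, F.1.1) := by
    have : ∀ F : {F // F ∈ E}, Finite F.1.1 := fun F => hfin F.1
    infer_instance
  have i2 : Finite (Σ F : {F // F ∈ E} × {F // F ∈ E}, Σ D : Subgroup F.1.1.1, (D →* F.2.1.1)) := by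
    have h3 : ∀ F : {F // F ∈ E} × {F // F ∈ E}, Finite (Σ D : Subgroup F.1.1.1, (D →* F.2.1.1)) := by
      intro F
      have := hfin F.1.1
      have := hfin F.2.1
      have : ∀ D : Subgroup F.1.1.1, Finite (D →* F.2.1.1) := fun D => DFunLike.finite _
      infer_instance
    infer_instance
  have hn1 : (⨅ x, U1 x).Normal := Subgroup.normal_iInf_normal a1
  have hn2 : (⨅ x, U2 x).Normal := Subgroup.normal_iInf_normal a2
  have hf1 : (⨅ x, U1 x).FiniteIndex := Subgroup.finiteIndex_iInf b1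
  have hf2 : (⨅ x, U2 x).FiniteIndex := Subgroup.finiteIndex_iInf b2
  obtain ⟨U, hU, hUf, hle1, hle2⟩ : ∃ U : Subgroup G, U.Normal ∧ U.FiniteIndex ∧
      (∀ x, U ≤ U1 x) ∧ ∀ x, U ≤ U2 x :=
    ⟨(⨅ x, U1 x) ⊓ (⨅ x, U2 x), inferInstance, inferInstance,
      fun x => inf_le_left.trans (iInf_le _ x), fun x => inf_le_right.trans (iInf_le _ x)⟩
  refine ⟨U, hU, hUf, ⟨?_, ?_⟩⟩
  · intro F hF f hf h
    by_contra hne
    have h4 : f ∈ U := (QuotientGroup.eq_one_iff f).1 h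
    exact c1 ⟨⟨F, hF⟩, ⟨f, hf⟩⟩ hne (hle1 _ h4)
  · intro F hF F' hF' D ψ q hq
    rcases c2 ⟨(⟨F, hF⟩, ⟨F', hF'⟩), ⟨D, ψ⟩⟩ with h | h
    · exact h
    · exact absurd (sep_aux U ψ q hq _ (hle2 ⟨(⟨F, hF⟩, ⟨F', hF'⟩), ⟨D, ψ⟩⟩)) h

end Exists

section Final

variable {R G : Type} [Ring R] [Group G]

theorem col_ind (q : Col (kgr R) (GrpCat.of G) → Prop) (h1 : ∀ H (x : KR R H.1), q (cmk H x))
    (h2 : ∀ x y, q x → q y → q (x + y)) (z : Col (kgr R) (GrpCat.of G)) : q z :=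
  Col.ind q h1 h2 z

theorem exists_fin (z : Col (kgr R) (GrpCat.of G)) : ∃ E : Finset (FS (GrpCat.of G)),
    z ∈ AddSubgroup.closure {w | ∃ F ∈ E, ∃ x : KR R F.1, w = cmk F x} := by
  refine col_ind (fun z => ∃ E : Finset (FS (GrpCat.of G)),
    z ∈ AddSubgroup.closure {w | ∃ F ∈ E, ∃ x : KR R F.1, w = cmk F x}) ?_ ?_ z
  · intro H x
    exact ⟨{H}, AddSubgroup.subset_closure ⟨H, Finset.mem_singleton_self H, x, rfl⟩⟩
  · rintro x y ⟨E, hE⟩ ⟨E', hE'⟩
    refine ⟨E ∪ E', AddSubgroup.add_mem _ ?_ ?_⟩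
    · refine AddSubgroup.closure_mono ?_ hE
      rintro w ⟨F, hF, x, rfl⟩
      exact ⟨F, Finset.mem_union_left _ hF, x, rfl⟩
    · refine AddSubgroup.closure_mono ?_ hE'
      rintro w ⟨F, hF, x, rfl⟩
      exact ⟨F, Finset.mem_union_right _ hF, x, rfl⟩

theorem main (hG : ∀ g : G, IsOfFinOrder g → g ≠ 1 →
    ∃ U : Subgroup G, U.Normal ∧ U.FiniteIndex ∧ g ∉ U) (z : Col (kgr R) (GrpCat.of G)) (n : ℕ)
    (hn : 0 < n) (hz : n • Col.to (kgr_inner R) (GrpCat.of G) z = 0) :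
    ∃ m : ℕ, 0 < m ∧ m • z ∈ locRel (kgr R) G := by
  obtain ⟨E, hE⟩ := exists_fin z
  obtain ⟨U, hU, hUf, hp⟩ := exists_sep hG E
  have hQ : Finite (G ⧸ U) := inferInstance
  obtain ⟨d⟩ := exists_dat hp
  let p := QuotientGroup.mk' U
  let N : ℕ := ∏ F ∈ E, Nat.card F.1
  have hN : 0 < N := by
    apply Finset.prod_pos
    intro F _
    have := F.2
    exact Nat.card_pos
  let T : Col (kgr R) (GrpCat.of G) →+ KR R G := Col.to (kgr_inner R) (GrpCat.of G)
  let A : Col (kgr R) (GrpCat.of G) →+ VV R G := N • ((theta R d).comp ((kh R p).comp T))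
  let B : Col (kgr R) (GrpCat.of G) →+ VV R G := (N * Nat.card (G ⧸ U)) • prj R G
  have hAB : ∀ w ∈ AddSubgroup.closure {w | ∃ F ∈ E, ∃ x : KR R F.1, w = cmk F x}, A w = B w := by
    intro w hw
    have hle : AddSubgroup.closure {w | ∃ F ∈ E, ∃ x : KR R F.1, w = cmk F x} ≤ (A - B).ker := by
      rw [AddSubgroup.closure_le]
      rintro w ⟨F, hF, x, rfl⟩
      have hFf : Finite F.1 := F.2
      rw [SetLike.mem_coe, AddMonoidHom.mem_ker, AddMonoidHom.sub_apply, sub_eq_zero]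
      obtain ⟨k, hk⟩ : Nat.card F.1 ∣ N := Finset.dvd_prod_of_mem _ hF
      have h1 : T (cmk F x) = kh R F.1.subtype x := Col.to_mk (kgr_inner R) F x
      change N • theta R d (kh R p (T (cmk F x))) = (N * Nat.card (G ⧸ U)) • prj R G (cmk F x)
      rw [h1, kh_comp, hk, mul_comm (Nat.card F.1) k, mul_smul]
      have h2 := key2 (R := R) hp d F hF x
      have h3 : Nat.card F.1 • theta R d (kh R (p.comp F.1.subtype) x) =
          (Nat.card (G ⧸ U) * Nat.card F.1) • prj R G (cmk F x) := h2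
      rw [h3, smul_smul]
      congr 1
      ring
    have := hle hw
    rw [AddMonoidHom.mem_ker, AddMonoidHom.sub_apply, sub_eq_zero] at this
    exact this
  refine ⟨N * Nat.card (G ⧸ U) * n, Nat.mul_pos (Nat.mul_pos hN Nat.card_pos) hn, ?_⟩
  rw [← prj_eq_zero, mul_smul, map_nsmul, map_nsmul]
  have h4 := hAB (n • z) (AddSubgroup.nsmul_mem _ hE n)
  have h5 : A (n • z) = 0 := by
    change N • theta R d (kh R p (T (n • z))) = 0
    have h6 : T (n • z) = 0 := by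
      rw [map_nsmul]
      exact hz
    rw [h6, map_zero, map_zero, smul_zero]
  rw [h5] at h4
  have h7 : B (n • z) = (N * Nat.card (G ⧸ U)) • n • prj R G z := by
    change (N * Nat.card (G ⧸ U)) • prj R G (n • z) = _
    rw [map_nsmul]
  rw [← h7, ← h4]

end Final

end Pool.Agent.K6.H64.FQ
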