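import Mathlib

/-!
Weights on the subgroups of a finite group.
-/

set_option autoImplicit false

namespace Pool.Agent.K6.H64.FQ

open scoped Classical Pointwise

section Mob

variable {F : Type} [Group F] [Finite F]

noncomputable instance fsub : Fintype (Subgroup F) := Fintype.ofFinite _

/-- A function on the subgroups whose sums over the subgroups above `K` are all `1` is the
indicator of the largest subgroup. -/
theorem ind_top (f : Subgroup F → ℤ) (hf : ∀ K, ∑ D ∈ Finset.univ.filter (fun D => K ≤ D), f D = 1)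
    (D : Subgroup F) : f D = if D = ⊤ then 1 else 0 := by
  have htop : f ⊤ = 1 := by
    have h := hf ⊤
    have e : Finset.univ.filter (fun D : Subgroup F => ⊤ ≤ D) = {⊤} := by
      ext D
      simp
    rw [e, Finset.sum_singleton] at h
    exact h
  induction D using WellFoundedGT.induction with
  | _ D ih =>
    by_cases hD : D = ⊤
    · rw [hD, if_pos rfl, htop]
    · rw [if_neg hD]
      have h := hf D
      have e : Finset.univ.filter (fun D' : Subgroup F => D ≤ D') =
          insert D (Finset.univ.filter (fun D' : Subgroup F => D < D')) := by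
        ext D'
        simp only [Finset.mem_filter, Finset.mem_univ, true_and, Finset.mem_insert]
        rw [le_iff_eq_or_lt, eq_comm]
      rw [e, Finset.sum_insert (by simp)] at h
      have h2 : ∑ D' ∈ Finset.univ.filter (fun D' : Subgroup F => D < D'), f D' = 1 := by
        rw [Finset.sum_congr rfl (fun D' hD' => ih D' (Finset.mem_filter.1 hD').2),
          Finset.sum_ite_eq']
        rw [if_pos]
        simp [lt_top_iff_ne_top, hD]
      rw [h2] at h
      linarith

end Mob

section Lam

variable {Q : Type} [Group Q] [Finite Q]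

/-- The weights. -/
noncomputable def lam (S : Set (Subgroup Q)) (K : Subgroup Q) : ℤ :=
  1 - ∑ C ∈ (Finset.univ.filter (fun C : Subgroup Q => C ∈ S ∧ K < C)).attach, lam S C.1
termination_by Nat.card Q - Nat.card K
decreasing_by
  have h := (Finset.mem_filter.1 C.2).2.2
  have h1 : Nat.card K < Nat.card C.1 := by
    have := Set.ncard_lt_ncard (SetLike.coe_ssubset_coe.2 h) (Set.toFinite _)
    exact this
  have h2 : Nat.card C.1 ≤ Nat.card Q := Subgroup.card_le_card_group C.1
  omega

theorem lam_eq (S : Set (Subgroup Q)) (K : Subgroup Q) :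
    lam S K = 1 - ∑ C ∈ Finset.univ.filter (fun C : Subgroup Q => C ∈ S ∧ K < C), lam S C := by
  rw [lam, Finset.sum_attach (Finset.univ.filter (fun C : Subgroup Q => C ∈ S ∧ K < C))
    (fun C => lam S C)]

theorem lam_sum (S : Set (Subgroup Q)) (K : Subgroup Q) (hK : K ∈ S) :
    ∑ C ∈ Finset.univ.filter (fun C : Subgroup Q => C ∈ S ∧ K ≤ C), lam S C = 1 := by
  have e : Finset.univ.filter (fun C : Subgroup Q => C ∈ S ∧ K ≤ C) =
      insert K (Finset.univ.filter (fun C : Subgroup Q => C ∈ S ∧ K < C)) := by
    ext C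
    simp only [Finset.mem_filter, Finset.mem_univ, true_and, Finset.mem_insert]
    constructor
    · rintro ⟨h1, h2⟩
      rcases h2.eq_or_lt with h | h
      · exact Or.inl h.symm
      · exact Or.inr ⟨h1, h⟩
    · rintro (rfl | ⟨h1, h2⟩)
      · exact ⟨hK, le_rfl⟩
      · exact ⟨h1, h2.le⟩
  rw [e, Finset.sum_insert (by simp), lam_eq S K]
  ring

theorem lam_conj (S : Set (Subgroup Q)) (hS : ∀ (g : Q) (C : Subgroup Q), C ∈ S →
    MulAut.conj g • C ∈ S) (g : Q) (K : Subgroup Q) : lam S (MulAut.conj g • K) = lam S K := by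
  induction K using WellFoundedGT.induction with
  | _ K ih =>
    rw [lam_eq S (MulAut.conj g • K), lam_eq S K]
    congr 1
    symm
    refine Finset.sum_nbij' (fun C => MulAut.conj g • C) (fun C => (MulAut.conj g)⁻¹ • C) ?_ ?_ ?_ ?_ ?_
    · intro C hC
      obtain ⟨-, h1, h2⟩ := Finset.mem_filter.1 hC
      refine Finset.mem_filter.2 ⟨Finset.mem_univ _, hS g C h1, ?_⟩
      refine lt_of_le_of_ne (Subgroup.pointwise_smul_le_pointwise_smul_iff.2 h2.le) ?_
      intro h
      exact h2.ne (smul_left_cancel _ h)
    · intro C hC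
      obtain ⟨-, h1, h2⟩ := Finset.mem_filter.1 hC
      refine Finset.mem_filter.2 ⟨Finset.mem_univ _, ?_, ?_⟩
      · rw [← map_inv]
        exact hS g⁻¹ C h1
      · refine lt_of_le_of_ne ?_ ?_
        · rw [← inv_smul_smul (MulAut.conj g) K]
          exact Subgroup.pointwise_smul_le_pointwise_smul_iff.2 h2.le
        · intro h
          rw [eq_inv_smul_iff] at h
          exact h2.ne h
    · intro C _
      exact inv_smul_smul _ _
    · intro C _
      exact smul_inv_smul _ _
    · intro C hC
      exact (ih C (Finset.mem_filter.1 hC).2.2).symm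

/-- The sum over all conjugates. -/
theorem sum_conj {V : Type*} [AddCommGroup V] (S : Set (Subgroup Q))
    (hS : ∀ (g : Q) (C : Subgroup Q), C ∈ S → MulAut.conj g • C ∈ S) (g : Q)
    (h : Subgroup Q → V) :
    ∑ C ∈ Finset.univ.filter (fun C : Subgroup Q => C ∈ S), lam S C • h (MulAut.conj g • C) =
      ∑ C ∈ Finset.univ.filter (fun C : Subgroup Q => C ∈ S), lam S C • h C := by
  refine Finset.sum_nbij' (fun C => MulAut.conj g • C) (fun C => (MulAut.conj g)⁻¹ • C) ?_ ?_ ?_ ?_ ?_
  · intro C hC
    exact Finset.mem_filter.2 ⟨Finset.mem_univ _, hS g C (Finset.mem_filter.1 hC).2⟩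
  · intro C hC
    refine Finset.mem_filter.2 ⟨Finset.mem_univ _, ?_⟩
    rw [← map_inv]
    exact hS g⁻¹ C (Finset.mem_filter.1 hC).2
  · intro C _
    exact inv_smul_smul _ _
  · intro C _
    exact smul_inv_smul _ _
  · intro C _
    rw [lam_conj S hS]

/-- The weights, seen from a finite group over `Q`. -/
theorem sum_comap {V : Type*} [AddCommGroup V] {F : Type} [Group F] [Finite F] (p : F →* Q)
    (S : Set (Subgroup Q)) (hp : ∀ K : Subgroup F, K.map p ∈ S) (h : Subgroup F → V) :
    ∑ C ∈ Finset.univ.filter (fun C : Subgroup Q => C ∈ S), lam S C • h (C.comap p) = h ⊤ := by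
  let T : Subgroup F → ℤ := fun D =>
    ∑ C ∈ Finset.univ.filter (fun C : Subgroup Q => C ∈ S ∧ C.comap p = D), lam S C
  have hT : ∀ D, T D = if D = ⊤ then 1 else 0 := by
    apply ind_top
    intro K
    rw [← lam_sum S (K.map p) (hp K)]
    rw [Finset.sum_comm' (s' := fun C => {C.comap p})
      (t' := Finset.univ.filter (fun C : Subgroup Q => C ∈ S ∧ K.map p ≤ C))]
    · apply Finset.sum_congr rfl
      intro C _
      rw [Finset.sum_singleton]
    · intro D C
      simp only [Finset.mem_filter, Finset.mem_univ, true_and, Finset.mem_singleton]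
      constructor
      · rintro ⟨h1, h2, rfl⟩
        exact ⟨rfl, h2, Subgroup.map_le_iff_le_comap.2 h1⟩
      · rintro ⟨rfl, h2, h3⟩
        exact ⟨Subgroup.map_le_iff_le_comap.1 h3, h2, rfl⟩
  have h1 : ∑ C ∈ Finset.univ.filter (fun C : Subgroup Q => C ∈ S), lam S C • h (C.comap p) =
      ∑ D : Subgroup F, T D • h D := by
    symm
    have : ∀ D : Subgroup F, T D • h D = ∑ C ∈ Finset.univ.filter
        (fun C : Subgroup Q => C ∈ S ∧ C.comap p = D), lam S C • h (C.comap p) := by
      intro D
      rw [Finset.sum_smul]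
      apply Finset.sum_congr rfl
      intro C hC
      rw [(Finset.mem_filter.1 hC).2.2]
    rw [Finset.sum_congr rfl (fun D _ => this D)]
    rw [Finset.sum_comm' (s' := fun C => {C.comap p})
      (t' := Finset.univ.filter (fun C : Subgroup Q => C ∈ S))]
    · apply Finset.sum_congr rfl
      intro C _
      rw [Finset.sum_singleton]
    · intro D C
      simp only [Finset.mem_filter, Finset.mem_univ, true_and, Finset.mem_singleton]
      constructor
      · rintro ⟨h2, rfl⟩
        exact ⟨rfl, h2⟩
      · rintro ⟨rfl, h2⟩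
        exact ⟨h2, rfl⟩
  rw [h1]
  rw [Finset.sum_congr rfl (fun D _ => by rw [hT D])]
  rw [Finset.sum_eq_single ⊤]
  · rw [if_pos rfl, one_smul]
  · intro D _ hD
    rw [if_neg hD, zero_smul]
  · intro h
    exact absurd (Finset.mem_univ _) h

/-- The sum over a group and the sum over the cosets. -/
theorem sum_cosets {V : Type*} [AddCommGroup V] (C : Subgroup Q) [Fintype Q] [Fintype (Q ⧸ C)]
    (t : Q ⧸ C → V) : ∑ g : Q, t (QuotientGroup.mk g) = Nat.card C • ∑ a : Q ⧸ C, t a := by
  let _ : Fintype C := Fintype.ofFinite _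
  rw [← Equiv.sum_comp (Subgroup.groupEquivQuotientProdSubgroup (s := C)).symm, Fintype.sum_prod_type,
    Finset.smul_sum]
  apply Finset.sum_congr rfl
  intro a _
  have h : ∀ c : C, (QuotientGroup.mk ((Subgroup.groupEquivQuotientProdSubgroup (s := C)).symm
      (a, c)) : Q ⧸ C) = a := by
    intro c
    have h2 := Equiv.apply_symm_apply (Subgroup.groupEquivQuotientProdSubgroup (s := C)) (a, c)
    exact congrArg Prod.fst h2
  simp only [h]
  rw [Finset.sum_const, Finset.card_univ, Nat.card_eq_fintype_card]

end Lam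

end Pool.Agent.K6.H64.FQ
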