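import Pool.Agent.K6.H64.FQ.Uni
import Pool.Agent.K6.H64.FQ.Defs

/-!
The map from the colimit of the groups `K₁(R[F])`, `F ≤ G` finite, to `K₁(R[G])`, seen in a finite
quotient of `G`.
-/

set_option autoImplicit false
set_option linter.unusedSectionVars false

namespace Pool.Agent.K6.H64.FQ

open Pool.Agent.Y477.IW CategoryTheory
open scoped Classical Pointwise

/-- The colimit modulo the relations `locRel`. -/
abbrev VV (R G : Type) [Ring R] [Group G] : Type :=
  Col (kgr R) (GrpCat.of G) ⧸ locRel (kgr R) G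

section Cl

variable {R G : Type} [Ring R] [Group G]

/-- The class of an element of `K₁(R[F])` in the colimit. -/
noncomputable def cmk (F : FS (GrpCat.of G)) (x : KR R F.1) : Col (kgr R) (GrpCat.of G) :=
  Col.mk (F := kgr R) F x

theorem cmk_add (F : FS (GrpCat.of G)) (x y : KR R F.1) : cmk F (x + y) = cmk F x + cmk F y :=
  Col.mk_add (F := kgr R) F x y

theorem cmk_incl (H F : FS (GrpCat.of G)) (hle : H.1 ≤ F.1) (x : KR R H.1) :
    cmk F (kh R (Subgroup.inclusion hle) x) = cmk H x :=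
  Col.mk_incl (F := kgr R) H F hle x

theorem cmk_rel (H K : FS (GrpCat.of G)) (c : H.1 →* K.1) (x : KR R H.1)
    (hc : LocConj (K.1.subtype.comp c)) : cmk K (kh R c x) - cmk H x ∈ locRel (kgr R) G :=
  AddSubgroup.subset_closure ⟨H, K, c, x, hc, rfl⟩

/-- The projection to the quotient. -/
noncomputable def prj (R G : Type) [Ring R] [Group G] : Col (kgr R) (GrpCat.of G) →+ VV R G :=
  QuotientAddGroup.mk' (locRel (kgr R) G)

theorem prj_eq_zero {z : Col (kgr R) (GrpCat.of G)} : prj R G z = 0 ↔ z ∈ locRel (kgr R) G :=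
  QuotientAddGroup.eq_zero_iff z

/-- The class of an element of `K₁(R[F])`. -/
noncomputable def cl (R : Type) [Ring R] {G : Type} [Group G] (F : FS (GrpCat.of G)) :
    KR R F.1 →+ VV R G := (prj R G).comp (AddMonoidHom.mk' (cmk F) (cmk_add F))

theorem cl_apply (F : FS (GrpCat.of G)) (x : KR R F.1) : cl R F x = prj R G (cmk F x) := rfl

theorem cl_hom {F F' : FS (GrpCat.of G)} {D : Type} [Group D] [Finite D] (α : D →* F.1)
    (hα : Function.Injective α) (β : D →* F'.1)
    (h : ∀ U : Subgroup G, U.Normal → U.FiniteIndex →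
      ∃ g : G, ∀ d : D, (β d : G)⁻¹ * (g * (α d : G) * g⁻¹) ∈ U) (y : KR R D) :
    cl R F' (kh R β y) = cl R F (kh R α y) := by
  let γ : D →* G := F.1.subtype.comp α
  have hγ : Function.Injective γ := F.1.subtype_injective.comp hα
  let e : D ≃* γ.range := MonoidHom.ofInjective hγ
  let H : FS (GrpCat.of G) := ⟨γ.range, Finite.of_equiv D e.toEquiv⟩
  let β' : H.1 →* F'.1 := β.comp e.symm.toMonoidHom
  have hle : H.1 ≤ F.1 := by
    rintro _ ⟨d, rfl⟩
    exact (α d).2
  have hr : cmk F' (kh R β' (kh R e.toMonoidHom y)) - cmk H (kh R e.toMonoidHom y) ∈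
      locRel (kgr R) G := by
    refine cmk_rel H F' β' (kh R e.toMonoidHom y) ?_
    intro U hU hU'
    obtain ⟨g, hg⟩ := h U hU hU'
    refine ⟨g, ?_⟩
    intro d
    have h1 := hg (e.symm d)
    have h2 : ((α (e.symm d) : F.1) : G) = d := congrArg Subtype.val (e.apply_symm_apply d)
    rw [h2] at h1
    exact h1
  have e1 : kh R β' (kh R e.toMonoidHom y) = kh R β y := by
    rw [kh_comp]
    congr 1
    congr 1
    ext1 d
    change β (e.symm (e d)) = β d
    rw [e.symm_apply_apply]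
  have e2 : cmk F (kh R α y) = cmk H (kh R e.toMonoidHom y) := by
    rw [← cmk_incl H F hle, kh_comp]
    rfl
  rw [e1, ← e2] at hr
  rw [cl_apply, cl_apply, ← sub_eq_zero, ← map_sub, prj_eq_zero]
  exact hr

end Cl

/-- The homomorphism `p` is injective on the finite subgroups in `E`, and homomorphisms between
their subgroups which are given by conjugation in `Q` are given by conjugation in each finite
quotient of `G`. -/
structure Sep {G Q : Type} [Group G] [Group Q] (p : G →* Q) (E : Set (FS (GrpCat.of G))) :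
    Prop where
  inj : ∀ F ∈ E, ∀ f ∈ F.1, p f = 1 → f = 1
  conj : ∀ F ∈ E, ∀ F' ∈ E, ∀ (D : Subgroup F.1) (ψ : D →* F'.1) (q : Q),
    (∀ d : D, p (ψ d : G) = q * p ((d : F.1) : G) * q⁻¹) →
      ∀ U : Subgroup G, U.Normal → U.FiniteIndex →
        ∃ g : G, ∀ d : D, (ψ d : G)⁻¹ * (g * ((d : F.1) : G) * g⁻¹) ∈ U

section Theta

variable {R G Q : Type} [Ring R] [Group G] [Group Q] [Finite Q] {p : G →* Q}
  {E : Set (FS (GrpCat.of G))}

/-- The subgroups of `Q` conjugate to subgroups of images of members of `E`. -/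
def SS (p : G →* Q) (E : Set (FS (GrpCat.of G))) : Set (Subgroup Q) :=
  {C | ∃ F ∈ E, ∃ q : Q, ∀ c ∈ C, ∃ f ∈ F.1, p f = q * c * q⁻¹}

theorem SS_conj (g : Q) (C : Subgroup Q) (hC : C ∈ SS p E) : MulAut.conj g • C ∈ SS p E := by
  obtain ⟨F, hF, q, h⟩ := hC
  refine ⟨F, hF, q * g⁻¹, ?_⟩
  intro c hc
  rw [Subgroup.mem_pointwise_smul_iff_inv_smul_mem] at hc
  obtain ⟨f, hf, h2⟩ := h _ hc
  refine ⟨f, hf, ?_⟩
  rw [h2]
  rw [← map_inv]
  change q * (g⁻¹ * c * g⁻¹⁻¹) * q⁻¹ = _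
  group

theorem exists_hom (hp : Sep p E) {C : Subgroup Q} (hC : C ∈ SS p E) :
    ∃ F ∈ E, ∃ (q : Q) (κ : C →* F.1), ∀ c : C, p (κ c : G) = q * c * q⁻¹ := by
  obtain ⟨F, hF, q, h⟩ := hC
  have h' : ∀ c : C, ∃ f : F.1, p (f : G) = q * c * q⁻¹ := by
    intro c
    obtain ⟨f, hf, h2⟩ := h c.1 c.2
    exact ⟨⟨f, hf⟩, h2⟩
  choose κ hκ using h'
  have hinj : ∀ f f' : F.1, p (f : G) = p (f' : G) → f = f' := by
    intro f f' hff
    have h3 := hp.inj F hF ((f * f'⁻¹ : F.1) : G) (f * f'⁻¹).2 (by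
      change p ((f : G) * (f' : G)⁻¹) = 1
      rw [map_mul, map_inv, hff, mul_inv_cancel])
    have h4 : f * f'⁻¹ = 1 := Subtype.ext h3
    exact mul_inv_eq_one.1 h4
  refine ⟨F, hF, q, MonoidHom.mk' κ ?_, hκ⟩
  intro c c'
  apply hinj
  change p (κ (c * c') : G) = p ((κ c : G) * (κ c' : G))
  rw [map_mul, hκ, hκ, hκ]
  change q * (c.1 * c'.1) * q⁻¹ = _
  group

/-- The data chosen for the members of `SS`. -/
structure Dat (p : G →* Q) (E : Set (FS (GrpCat.of G))) where
  F : Subgroup Q → FS (GrpCat.of G)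
  q : Subgroup Q → Q
  κ : ∀ C : Subgroup Q, C →* (F C).1
  mem : ∀ C ∈ SS p E, F C ∈ E
  eq : ∀ C ∈ SS p E, ∀ c : C, p (κ C c : G) = q C * c * (q C)⁻¹

theorem exists_dat (hp : Sep p E) : Nonempty (Dat p E) := by
  have h : ∀ C : Subgroup Q, ∃ (F : FS (GrpCat.of G)) (q : Q) (κ : C →* F.1), C ∈ SS p E →
      F ∈ E ∧ ∀ c : C, p (κ c : G) = q * c * q⁻¹ := by
    intro C
    by_cases hC : C ∈ SS p E
    · obtain ⟨F, hF, q, κ, h⟩ := exists_hom hp hC
      exact ⟨F, q, κ, fun _ => ⟨hF, h⟩⟩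
    · exact ⟨⟨⊥, inferInstance⟩, 1, 1, fun h => absurd h hC⟩
  choose F q κ hh using h
  exact ⟨⟨F, q, κ, fun C hC => (hh C hC).1, fun C hC => (hh C hC).2⟩⟩

/-- The map back to the colimit. -/
noncomputable def theta (R : Type) [Ring R] (d : Dat p E) : KR R Q →+ VV R G :=
  ∑ C ∈ Finset.univ.filter (fun C : Subgroup Q => C ∈ SS p E),
    lam (SS p E) C • (Nat.card C • (((cl R (d.F C)).comp (kh R (d.κ C))).comp (res R C)))

theorem theta_apply (d : Dat p E) (v : KR R Q) : theta R d v =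
    ∑ C ∈ Finset.univ.filter (fun C : Subgroup Q => C ∈ SS p E),
      lam (SS p E) C • (Nat.card C • cl R (d.F C) (kh R (d.κ C) (res R C v))) := by
  unfold theta
  rw [AddMonoidHom.finsetSum_apply]
  rfl

variable (hp : Sep p E) (d : Dat p E) (F : FS (GrpCat.of G)) (hF : F ∈ E)

/-- The class of the restriction to a subgroup. -/
noncomputable def ww (R : Type) [Ring R] {G : Type} [Group G] (F : FS (GrpCat.of G))
    [Finite F.1] (x : KR R F.1) (D : Subgroup F.1) : VV R G :=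
  cl R F (kh R D.subtype (res R D x))

include hp hF in
theorem key1 [Finite F.1] (x : KR R F.1) (C : Subgroup Q) (hC : C ∈ SS p E)
    [inst : Fintype (Q ⧸ C)] :
    Nat.card F.1 • cl R (d.F C) (kh R (d.κ C) (res R C (kh R (p.comp F.1.subtype) x))) =
      ∑ a : Q ⧸ C, Nat.card (stab ((std Q C).pull (p.comp F.1.subtype)) a) •
        ww R F x (stab ((std Q C).pull (p.comp F.1.subtype)) a) := by
  obtain rfl : inst = Fintype.ofFinite (Q ⧸ C) := Subsingleton.elim _ _
  let _ : Fintype (Q ⧸ C) := Fintype.ofFinite (Q ⧸ C)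
  have h1 : res R C (kh R (p.comp F.1.subtype) x) =
      tr R ((std Q C).pull (p.comp F.1.subtype)) x :=
    tr_pull (R := R) (std Q C) (p.comp F.1.subtype) x
  rw [h1]
  have h3 := sum_tr (R := R) ((std Q C).pull (p.comp F.1.subtype)) x
    ((cl R (d.F C)).comp (kh R (d.κ C)))
  rw [AddMonoidHom.comp_apply] at h3
  rw [h3]
  apply Finset.sum_congr rfl
  intro a _
  congr 1
  rw [AddMonoidHom.comp_apply, kh_comp]
  unfold ww
  apply cl_hom _ (Subgroup.subtype_injective _)
  apply hp.conj F hF (d.F C) (d.mem C hC) _ _ (d.q C * a.out⁻¹)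
  intro f
  have hf : p ((f : F.1) : G) • a = a := f.2
  rw [MonoidHom.comp_apply, d.eq C hC]
  have h4 : ((stabHom ((std Q C).pull (p.comp F.1.subtype)) a f : C) : Q) =
      a.out⁻¹ * (p ((f : F.1) : G) * a.out) := by
    change (p ((f : F.1) : G) • a).out⁻¹ * (p ((f : F.1) : G) * a.out) = _
    rw [hf]
  rw [h4]
  group

end Theta

end Pool.Agent.K6.H64.FQ
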