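import Pool.Agent.Y477.IW.KFin

/-!
The map `K₁(M_A(S)) → K₁(S)` for a finite set `A`, and its naturality.
-/

set_option autoImplicit false

namespace Pool.Agent.K6.H64.FQ

open Matrix Pool.Agent.Y477.IW

section Mor

variable {S T : Type} [Ring S] [Ring T] {A B : Type} [Fintype A] [DecidableEq A] [Fintype B]
  [DecidableEq B]

/-- A matrix of matrices, written as one matrix. -/
def flat (ι : Type) [Fintype ι] (A : Type) [Fintype A] (S : Type) [Ring S] :
    Matrix ι ι (Matrix A A S) →ₙ+* Matrix (ι × A) (ι × A) S where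
  toFun X := Matrix.of fun x y => X x.1 y.1 x.2 y.2
  map_zero' := rfl
  map_add' X Y := rfl
  map_mul' X Y := by
    ext x y
    simp only [Matrix.of_apply, Matrix.mul_apply, Fintype.sum_prod_type]
    rw [Matrix.sum_apply]
    rfl

theorem flat_apply {ι : Type} [Fintype ι] (X : Matrix ι ι (Matrix A A S)) (x y : ι × A) :
    flat ι A S X x y = X x.1 y.1 x.2 y.2 := rfl

theorem flat_injR {ι κ : Type} [Fintype ι] [Fintype κ] (f : ι ↪ κ) :
    (flat κ A S).comp (injR (Matrix A A S) f) =
      (injR S (f.prodMap (Function.Embedding.refl A))).comp (flat ι A S) := by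
  apply NonUnitalRingHom.ext
  intro X
  ext x y
  rw [NonUnitalRingHom.comp_apply, NonUnitalRingHom.comp_apply, flat_apply]
  have key : ∀ z : κ × A, z.1 ∉ Set.range f → z ∉ Set.range (f.prodMap (Function.Embedding.refl A)) := by
    rintro z hz ⟨w, rfl⟩
    exact hz ⟨w.1, rfl⟩
  by_cases hx : x.1 ∈ Set.range f
  · by_cases hy : y.1 ∈ Set.range f
    · obtain ⟨i, hi⟩ := hx
      obtain ⟨j, hj⟩ := hy
      have ex : x = f.prodMap (Function.Embedding.refl A) (i, x.2) := Prod.ext hi.symm rfl
      have ey : y = f.prodMap (Function.Embedding.refl A) (j, y.2) := Prod.ext hj.symm rfl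
      conv_rhs => rw [ex, ey, injR_apply]
      rw [← hi, ← hj, injR_apply]
      rfl
    · rw [injR_right _ _ _ hy, injR_right _ _ _ (key y hy)]
      rfl
  · rw [injR_left _ _ hx, injR_left _ _ (key x hx)]
    rfl

/-- The map `K₁(M_A(S)) → K₁(S)` which writes a matrix of matrices as one matrix. -/
noncomputable def mor (A : Type) [Fintype A] [DecidableEq A] (S : Type) [Ring S] :
    K1 (Matrix A A S) →+ K1 S :=
  K1.lift (fun n M => cls (unzU (flat (Fin n) A S) M))
    (fun n M N => by rw [map_mul, cls_mul])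
    (fun n m f M => by
      rw [← unzU_comp, flat_injR, unzU_comp, cls_injR])

theorem mor_mk {n : ℕ} (M : (Matrix (Fin n) (Fin n) (Matrix A A S))ˣ) :
    mor A S (K1.mk M) = cls (unzU (flat (Fin n) A S) M) := K1.lift_mk _ _ _ _

theorem map_cls {ι : Type} [Fintype ι] [DecidableEq ι] (f : S →ₙ+* T) (M : (Matrix ι ι S)ˣ) :
    K1.map f (cls M) = cls (unzU (mapR ι f) M) := by
  unfold cls
  rw [K1.map_mk, ← unzU_comp, ← unzU_comp, mapR_injR]

theorem mor_map (f : S →ₙ+* T) (x : K1 (Matrix A A S)) :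
    mor A T (K1.map (mapR A f) x) = K1.map f (mor A S x) := by
  have h : ∀ x, ((mor A T).comp (K1.map (mapR A f))) x = ((K1.map f).comp (mor A S)) x := by
    refine K1.hom_ext fun n M => ?_
    rw [AddMonoidHom.comp_apply, AddMonoidHom.comp_apply, K1.map_mk, mor_mk, mor_mk, map_cls,
      ← unzU_comp, ← unzU_comp]
    rfl
  exact h x

theorem flat_inj {ι : Type} [Fintype ι] (f : A ↪ B) :
    (flat ι B S).comp (mapR ι (injR S f)) =
      (injR S ((Function.Embedding.refl ι).prodMap f)).comp (flat ι A S) := by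
  apply NonUnitalRingHom.ext
  intro X
  ext x y
  rw [NonUnitalRingHom.comp_apply, NonUnitalRingHom.comp_apply, flat_apply]
  change injR S f (X x.1 y.1) x.2 y.2 = _
  have key : ∀ z : ι × B, z.2 ∉ Set.range f → z ∉ Set.range ((Function.Embedding.refl ι).prodMap f) := by
    rintro z hz ⟨w, rfl⟩
    exact hz ⟨w.2, rfl⟩
  by_cases hx : x.2 ∈ Set.range f
  · by_cases hy : y.2 ∈ Set.range f
    · obtain ⟨i, hi⟩ := hx
      obtain ⟨j, hj⟩ := hy
      have ex : x = (Function.Embedding.refl ι).prodMap f (x.1, i) := Prod.ext rfl hi.symm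
      have ey : y = (Function.Embedding.refl ι).prodMap f (y.1, j) := Prod.ext rfl hj.symm
      conv_rhs => rw [ex, ey, injR_apply]
      rw [← hi, ← hj, injR_apply]
      rfl
    · rw [injR_right _ _ _ hy, injR_right _ _ _ (key y hy)]
  · rw [injR_left _ _ hx, injR_left _ _ (key x hx)]

theorem mor_inj (f : A ↪ B) (x : K1 (Matrix A A S)) :
    mor B S (K1.map (injR S f) x) = mor A S x := by
  have h : ∀ x, ((mor B S).comp (K1.map (injR S f))) x = mor A S x := by
    refine K1.hom_ext fun n M => ?_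
    rw [AddMonoidHom.comp_apply, K1.map_mk, mor_mk, mor_mk, ← unzU_comp, flat_inj, unzU_comp,
      cls_injR]
  exact h x

theorem map_zero_hom (f : S →ₙ+* T) (hf : ∀ x, f x = 0) (x : K1 S) : K1.map f x = 0 := by
  have h : ∀ x, (K1.map f) x = (0 : K1 S →+ K1 T) x := by
    refine K1.hom_ext fun n M => ?_
    rw [K1.map_mk, AddMonoidHom.zero_apply]
    have : unzU (mapR (Fin n) f) M = 1 := by
      apply Units.ext
      rw [unzU_val]
      have e : ∀ X : Matrix (Fin n) (Fin n) S, mapR (Fin n) f X = 0 := by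
        intro X
        ext i j
        exact hf _
      rw [e, e]
      simp
    rw [this, K1.mk_one]
  exact h x

end Mor

end Pool.Agent.K6.H64.FQ
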