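import Pool.Agent.K6.H64.FQ.Tr

/-!
Transfers on orbits, and the sum over the orbits.
-/

set_option autoImplicit false
set_option linter.unusedSectionVars false

namespace Pool.Agent.K6.H64.FQ

open Matrix Pool.Agent.Y477.IW

/-- The standard action on the cosets of a subgroup, with its cocycle. -/
noncomputable def std (F : Type) [Group F] (D : Subgroup F) : Act F (F ⧸ D) D where
  σ := MulAction.toPermHom F (F ⧸ D)
  c f α := ⟨(f • α).out⁻¹ * (f * α.out), by
    rw [← QuotientGroup.eq, QuotientGroup.out_eq']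
    change f • α = f • (QuotientGroup.mk α.out : F ⧸ D)
    rw [QuotientGroup.out_eq']⟩
  mul_c f h a := by
    apply Subtype.ext
    change ((f * h) • a).out⁻¹ * (f * h * a.out) =
      (f • (h • a)).out⁻¹ * (f * (h • a).out) * ((h • a).out⁻¹ * (h * a.out))
    rw [mul_smul]
    group

theorem perm_inv_self {X : Type} (σ : Equiv.Perm X) (a : X) : σ⁻¹ (σ a) = a :=
  σ.symm_apply_apply a

section Basic

variable {R F X K : Type} [Ring R] [Group F] [Group K]

theorem std_σ (D : Subgroup F) (f : F) (α : F ⧸ D) : (std F D).σ f α = f • α := rfl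

theorem std_c (D : Subgroup F) (f : F) (α : F ⧸ D) :
    (f • α).out * ((std F D).c f α : F) = f * α.out := by
  change (f • α).out * ((f • α).out⁻¹ * (f * α.out)) = _
  group

/-- The stabilizer. -/
def stab (κ : Act F X K) (a : X) : Subgroup F where
  carrier := {f | κ.σ f a = a}
  mul_mem' {f h} hf hh := by
    change κ.σ (f * h) a = a
    rw [map_mul, Equiv.Perm.mul_apply]
    rw [show κ.σ h a = a from hh]
    exact hf
  one_mem' := by
    change κ.σ 1 a = a
    rw [map_one]; rfl
  inv_mem' {f} hf := by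
    change κ.σ f⁻¹ a = a
    rw [map_inv, Equiv.Perm.inv_eq_iff_eq]
    exact (show κ.σ f a = a from hf).symm

theorem mem_stab (κ : Act F X K) (a : X) (f : F) : f ∈ stab κ a ↔ κ.σ f a = a := Iff.rfl

theorem c_one (κ : Act F X K) (a : X) : κ.c 1 a = 1 := by
  have h := κ.mul_c 1 1 a
  rw [mul_one, map_one] at h
  change κ.c 1 a = κ.c 1 a * κ.c 1 a at h
  exact left_eq_mul.mp h

/-- The value of the cocycle on the stabilizer. -/
def stabHom (κ : Act F X K) (a : X) : stab κ a →* K where
  toFun d := κ.c d.1 a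
  map_one' := c_one κ a
  map_mul' d d' := by
    change κ.c (d.1 * d'.1) a = _
    rw [κ.mul_c, show κ.σ d'.1 a = a from d'.2]

/-- The orbit. -/
def orb (κ : Act F X K) (a : X) : Set X := {b | ∃ f, κ.σ f a = b}

theorem inv_orb (κ : Act F X K) (a : X) : Inv κ (orb κ a) := by
  intro f b
  constructor
  · rintro ⟨h, hh⟩
    refine ⟨f⁻¹ * h, ?_⟩
    rw [map_mul, Equiv.Perm.mul_apply, hh, map_inv, perm_inv_self]
  · rintro ⟨h, rfl⟩
    exact ⟨f * h, by rw [map_mul, Equiv.Perm.mul_apply]⟩

theorem self_mem_orb (κ : Act F X K) (a : X) : a ∈ orb κ a := ⟨1, by rw [map_one]; rfl⟩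

theorem orb_eq (κ : Act F X K) {a b : X} (h : b ∈ orb κ a) : orb κ b = orb κ a := by
  obtain ⟨f, rfl⟩ := h
  ext c
  constructor
  · rintro ⟨h, rfl⟩
    exact ⟨h * f, by rw [map_mul, Equiv.Perm.mul_apply]⟩
  · rintro ⟨h, rfl⟩
    refine ⟨h * f⁻¹, ?_⟩
    rw [map_mul, Equiv.Perm.mul_apply, map_inv, perm_inv_self]

/-- The embedding of the cosets of the stabilizer. -/
noncomputable def orbEmb (κ : Act F X K) (a : X) : F ⧸ stab κ a ↪ X where
  toFun α := κ.σ α.out a
  inj' α β h := by
    change κ.σ α.out a = κ.σ β.out a at h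
    rw [← QuotientGroup.out_eq' α, ← QuotientGroup.out_eq' β, QuotientGroup.eq, mem_stab, map_mul,
      Equiv.Perm.mul_apply, ← h, map_inv]
    exact perm_inv_self _ _

theorem orbEmb_smul (κ : Act F X K) (a : X) (f : F) (α : F ⧸ stab κ a) :
    orbEmb κ a (f • α) = κ.σ f (orbEmb κ a α) := by
  change κ.σ (f • α).out a = κ.σ f (κ.σ α.out a)
  rw [← Equiv.Perm.mul_apply, ← map_mul, ← std_c, map_mul, Equiv.Perm.mul_apply]
  congr 1
  exact (((std F (stab κ a)).c f α).2 : κ.σ _ a = a).symm

theorem range_orbEmb (κ : Act F X K) (a b : X) : b ∈ Set.range (orbEmb κ a) ↔ b ∈ orb κ a := by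
  constructor
  · rintro ⟨α, rfl⟩
    exact ⟨α.out, rfl⟩
  · rintro ⟨f, rfl⟩
    refine ⟨f • (QuotientGroup.mk 1 : F ⧸ stab κ a), ?_⟩
    rw [orbEmb_smul]
    congr 1
    have h : (QuotientGroup.mk (QuotientGroup.mk 1 : F ⧸ stab κ a).out : F ⧸ stab κ a) =
        QuotientGroup.mk 1 := Quotient.out_eq' _
    rw [eq_comm, QuotientGroup.eq, inv_one, one_mul] at h
    exact h

theorem coc_id (κ : Act F X K) (a : X) (f : F) (α : F ⧸ stab κ a) :
    κ.c (f • α).out a * stabHom κ a ((std F (stab κ a)).c f α) * (κ.c α.out a)⁻¹ =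
      κ.c f (orbEmb κ a α) := by
  have h1 : κ.c ((f • α).out * ((std F (stab κ a)).c f α).1) a = κ.c (f * α.out) a := by
    rw [std_c]
  rw [κ.mul_c, κ.mul_c, show κ.σ ((std F (stab κ a)).c f α).1 a = a from
    ((std F (stab κ a)).c f α).2] at h1
  change κ.c (f • α).out a * κ.c ((std F (stab κ a)).c f α).1 a * (κ.c α.out a)⁻¹ = _
  rw [h1, mul_inv_cancel_right]
  rfl

end Basic

section Main

variable {R F X K : Type} [Ring R] [Group F] [Finite F] [Group K] [Fintype X] [DecidableEq X]

open Classical in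
/-- The restriction to a subgroup of a finite group. -/
noncomputable def res (R : Type) [Ring R] {F : Type} [Group F] [Finite F] (D : Subgroup F) :
    KR R F →+ KR R D :=
  haveI : Fintype (F ⧸ D) := Fintype.ofFinite _
  tr R (std F D)

/-- The map induced by a homomorphism of groups. -/
noncomputable abbrev kh (R : Type) [Ring R] {F K : Type} [Group F] [Group K] (f : F →* K) :
    KR R F →+ KR R K := km (NonUnitalRingHom.id R) f

open Classical in
theorem tr_orb (κ : Act F X K) (a : X) (x : KR R F) :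
    trS R κ (orb κ a) (inv_orb κ a) x = kh R (stabHom κ a) (res R (stab κ a) x) := by
  let _ : Fintype (F ⧸ stab κ a) := Fintype.ofFinite _
  let j := orbEmb κ a
  let u : X → K := fun b => if h : ∃ α, j α = b then κ.c h.choose.out a else 1
  have hu : ∀ α, u (j α) = κ.c α.out a := by
    intro α
    have h : ∃ β, j β = j α := ⟨α, rfl⟩
    change (if h : ∃ β, j β = j α then κ.c h.choose.out a else 1) = _
    rw [dif_pos h, j.injective h.choose_spec]
  let U : Matrix X X (MonoidAlgebra R K) := Matrix.diagonal fun b => MonoidAlgebra.single (u b) 1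
  let V : Matrix X X (MonoidAlgebra R K) :=
    Matrix.diagonal fun b => MonoidAlgebra.single (u b)⁻¹ 1
  let ψ : MonoidAlgebra R (stab κ a) →ₙ+* MonoidAlgebra R K :=
    grm (NonUnitalRingHom.id R) (stabHom κ a)
  let m := mon R (std F (stab κ a)) Set.univ (inv_univ _)
  let g : MonoidAlgebra R F →ₙ+* Matrix X X (MonoidAlgebra R K) :=
    (injR (MonoidAlgebra R K) j).comp ((mapR (F ⧸ stab κ a) ψ).comp m)
  have hg : ∀ x, mon R κ (orb κ a) (inv_orb κ a) x = U * g x * V := by
    intro x
    refine mon_ext (f := (mon R κ (orb κ a) (inv_orb κ a) :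
        MonoidAlgebra R F →+ Matrix X X (MonoidAlgebra R K)))
      (g := (AddMonoidHom.mulRight V).comp ((AddMonoidHom.mulLeft U).comp
        (g : MonoidAlgebra R F →+ Matrix X X (MonoidAlgebra R K)))) ?_ x
    intro f r
    ext1 b b'
    change mon R κ (orb κ a) (inv_orb κ a) (MonoidAlgebra.single f r) b b' =
      (U * g (MonoidAlgebra.single f r) * V) b b'
    rw [mon_single, Matrix.mul_diagonal, Matrix.diagonal_mul]
    change _ = MonoidAlgebra.single (u b) 1 *
      injR (MonoidAlgebra R K) j ((mapR (F ⧸ stab κ a) ψ) (m (MonoidAlgebra.single f r))) b b' *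
      MonoidAlgebra.single (u b')⁻¹ 1
    by_cases hb : b ∈ Set.range j
    · by_cases hb' : b' ∈ Set.range j
      · have hbo := (range_orbEmb κ a b).1 hb
        obtain ⟨β, rfl⟩ := hb
        obtain ⟨α, rfl⟩ := hb'
        rw [injR_apply]
        change _ = MonoidAlgebra.single (u (j β)) 1 * ψ (m (MonoidAlgebra.single f r) β α) *
          MonoidAlgebra.single (u (j α))⁻¹ 1
        change _ = MonoidAlgebra.single (u (j β)) 1 *
          ψ (mon R (std F (stab κ a)) Set.univ (inv_univ _) (MonoidAlgebra.single f r) β α) *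
          MonoidAlgebra.single (u (j α))⁻¹ 1
        rw [mon_single, hu, hu]
        have hj : κ.σ f (j α) = j (f • α) := (orbEmb_smul κ a f α).symm
        by_cases h : f • α = β
        · subst h
          rw [if_pos ⟨hj, hbo⟩, if_pos ⟨rfl, Set.mem_univ _⟩]
          change _ = _ * grm (NonUnitalRingHom.id R) (stabHom κ a) (MonoidAlgebra.single _ r) * _
          rw [grm_single, MonoidAlgebra.single_mul_single, MonoidAlgebra.single_mul_single,
            one_mul, mul_one, coc_id]
          rfl
        · rw [if_neg, if_neg]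
          · rw [map_zero, mul_zero, zero_mul]
          · exact fun h2 => h h2.1
          · rintro ⟨h2, -⟩
            rw [hj] at h2
            exact h (j.injective h2)
      · rw [injR_right _ _ _ hb', mul_zero, zero_mul, if_neg]
        rintro ⟨h1, h2⟩
        rw [← h1, inv_orb κ a f b'] at h2
        exact hb' ((range_orbEmb κ a b').2 h2)
    · rw [injR_left _ _ hb, mul_zero, zero_mul, if_neg]
      rintro ⟨-, h2⟩
      exact hb ((range_orbEmb κ a b).2 h2)
  have hUV : U * V = 1 := by
    rw [Matrix.diagonal_mul_diagonal]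
    simp only [MonoidAlgebra.single_mul_single, mul_inv_cancel, mul_one]
    exact Matrix.diagonal_one
  have hVU : V * U = 1 := by
    rw [Matrix.diagonal_mul_diagonal]
    simp only [MonoidAlgebra.single_mul_single, inv_mul_cancel, mul_one]
    exact Matrix.diagonal_one
  unfold trS
  rw [AddMonoidHom.comp_apply, K1.map_conj' g (mon R κ (orb κ a) (inv_orb κ a)) U V hUV hVU hg x]
  change mor X _ (K1.map ((injR (MonoidAlgebra R K) j).comp
    ((mapR (F ⧸ stab κ a) ψ).comp m)) x) = _
  rw [K1.map_comp', mor_inj, K1.map_comp', mor_map]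
  rfl

end Main

end Pool.Agent.K6.H64.FQ
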