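import Pool.Agent.K6.H64.FQ.Orb

/-!
The sum over the orbits of the transfer.
-/

set_option autoImplicit false
set_option linter.unusedSectionVars false

namespace Pool.Agent.K6.H64.FQ

open Matrix Pool.Agent.Y477.IW

section Main

variable {R F X K : Type} [Ring R] [Group F] [Finite F] [Group K] [Fintype X] [DecidableEq X]

theorem trS_congr (κ : Act F X K) {S S' : Set X} (h : S = S') (hS : Inv κ S) (hS' : Inv κ S')
    (x : KR R F) : trS R κ S hS x = trS R κ S' hS' x := by
  subst h
  rfl

theorem card_orb (κ : Act F X K) (a : X) :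
    Nat.card (orb κ a) * Nat.card (stab κ a) = Nat.card F := by
  let _ : MulAction F X := MulAction.compHom X κ.σ
  have h1 : orb κ a = MulAction.orbit F a := rfl
  have h2 : stab κ a = MulAction.stabilizer F a := by
    ext f
    exact Iff.rfl
  rw [h1, h2, ← Subgroup.card_mul_index (MulAction.stabilizer F a), mul_comm,
    MulAction.index_stabilizer]
  rfl

theorem card_stab_eq (κ : Act F X K) {a b : X} (h : b ∈ orb κ a) :
    Nat.card (stab κ b) = Nat.card (stab κ a) := by
  have h1 := card_orb κ a
  have h2 := card_orb κ b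
  rw [orb_eq κ h] at h2
  have h3 : 0 < Nat.card (orb κ a) := by
    rw [Nat.card_pos_iff]
    exact ⟨⟨⟨a, self_mem_orb κ a⟩⟩, inferInstance⟩
  exact Nat.eq_of_mul_eq_mul_left h3 (h2.trans h1.symm)

open Classical in
theorem sum_aux {V : Type*} [AddCommGroup V] (κ : Act F X K) (x : KR R F) (Θ : KR R K →+ V)
    (n : ℕ) : ∀ (S : Finset X) (hS : Inv κ (S : Set X)), S.card = n →
    Nat.card F • Θ (trS R κ (S : Set X) hS x) =
      ∑ a ∈ S, Nat.card (stab κ a) • Θ (kh R (stabHom κ a) (res R (stab κ a) x)) := by
  induction n using Nat.strong_induction_on with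
  | _ n ih =>
    intro S hS hn
    by_cases h0 : S = ∅
    · subst h0
      rw [Finset.sum_empty, trS_congr κ (Finset.coe_empty) hS (by simpa using hS), trS_empty,
        map_zero, smul_zero]
    · obtain ⟨a, ha⟩ := Finset.nonempty_iff_ne_empty.2 h0
      let O : Finset X := S.filter (fun b => b ∈ orb κ a)
      have hO : (O : Set X) = orb κ a := by
        ext b
        constructor
        · intro hb
          exact (Finset.mem_filter.1 (Finset.mem_coe.1 hb)).2
        · intro hb
          apply Finset.mem_coe.2
          refine Finset.mem_filter.2 ⟨?_, hb⟩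
          obtain ⟨f, rfl⟩ := hb
          exact Finset.mem_coe.1 ((hS f a).2 (Finset.mem_coe.2 ha))
      have hOS : O ⊆ S := Finset.filter_subset _ _
      have hT : Inv κ ((S \ O : Finset X) : Set X) := by
        intro f b
        rw [Finset.coe_sdiff, Set.mem_sdiff, Set.mem_sdiff, hO, hS f b, inv_orb κ a f b]
      have hO' : Inv κ (O : Set X) := by
        rw [hO]
        exact inv_orb κ a
      have hU : (S : Set X) = (O : Set X) ∪ ((S \ O : Finset X) : Set X) := by
        rw [Finset.coe_sdiff, Set.union_sdiff_cancel]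
        exact Finset.coe_subset.2 hOS
      have hd : Disjoint (O : Set X) ((S \ O : Finset X) : Set X) := by
        rw [Finset.coe_sdiff]
        exact Set.disjoint_sdiff_right
      have haO : a ∈ O := Finset.mem_filter.2 ⟨ha, self_mem_orb κ a⟩
      have hcard : (S \ O).card < n := by
        rw [← hn]
        apply Finset.card_lt_card
        refine ⟨Finset.sdiff_subset, fun h => ?_⟩
        exact (Finset.mem_sdiff.1 (h ha)).2 haO
      have h1 := ih _ hcard (S \ O) hT rfl
      have hUn : Inv κ ((O : Set X) ∪ ((S \ O : Finset X) : Set X)) := by rw [← hU]; exact hS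
      have e1 : trS R κ (S : Set X) hS x = trS R κ (orb κ a) (inv_orb κ a) x +
          trS R κ ((S \ O : Finset X) : Set X) hT x :=
        ((trS_congr κ hU hS hUn x).trans (trS_union κ (O : Set X) _ hO' hT hUn hd x)).trans
          (congrArg (fun t => t + _) (trS_congr κ hO hO' (inv_orb κ a) x))
      have h2 : ∀ b ∈ O, Nat.card (stab κ b) • Θ (kh R (stabHom κ b) (res R (stab κ b) x)) =
          Nat.card (stab κ a) • Θ (trS R κ (orb κ a) (inv_orb κ a) x) := by
        intro b hb
        have hb' : b ∈ orb κ a := by
          rw [← hO]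
          exact Finset.mem_coe.2 hb
        rw [card_stab_eq κ hb', ← tr_orb κ b x,
          trS_congr κ (orb_eq κ hb') (inv_orb κ b) (inv_orb κ a)]
      have hOc : O.card = Nat.card (orb κ a) := by
        rw [← hO, Nat.card_eq_fintype_card]
        simp
      have h3 : ∑ b ∈ O, Nat.card (stab κ b) • Θ (kh R (stabHom κ b) (res R (stab κ b) x)) =
          Nat.card F • Θ (trS R κ (orb κ a) (inv_orb κ a) x) := by
        rw [Finset.sum_congr rfl h2, Finset.sum_const, smul_smul, hOc, card_orb κ a]
      rw [e1, map_add, smul_add, h1, ← h3, add_comm]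
      exact Finset.sum_sdiff hOS

theorem sum_tr {V : Type*} [AddCommGroup V] (κ : Act F X K) (x : KR R F) (Θ : KR R K →+ V) :
    Nat.card F • Θ (tr R κ x) =
      ∑ a : X, Nat.card (stab κ a) • Θ (kh R (stabHom κ a) (res R (stab κ a) x)) := by
  classical
  have h := sum_aux κ x Θ _ (Finset.univ : Finset X) (by
    rw [Finset.coe_univ]
    exact inv_univ κ) rfl
  rw [← h]
  have e : tr R κ x = trS R κ ((Finset.univ : Finset X) : Set X) (by
    rw [Finset.coe_univ]
    exact inv_univ κ) x := trS_congr κ Finset.coe_univ.symm _ _ _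
  rw [e]

end Main

end Pool.Agent.K6.H64.FQ
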