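import Pool.Agent.K6.H64.FQ.Mor

/-!
Transfers for `K₁(R[-])` along actions on finite sets with cocycles.
-/

set_option autoImplicit false

namespace Pool.Agent.K6.H64.FQ

open Matrix Pool.Agent.Y477.IW

/-- An action of the group `F` on `X` with a cocycle with values in `K`. -/
structure Act (F X K : Type) [Group F] [Group K] where
  σ : F →* Equiv.Perm X
  c : F → X → K
  mul_c : ∀ f h a, c (f * h) a = c f (σ h a) * c h a

/-- The group `K₁(R[F])`. -/
abbrev KR (R F : Type) [Ring R] [Group F] : Type := K1 (MonoidAlgebra R F)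

set_option linter.unusedSectionVars false

section Mon

variable {R F X K : Type} [Ring R] [Group F] [Group K] [Fintype X] [DecidableEq X]

open Classical in
/-- The coefficients, on the diagonal entries in `S`. -/
noncomputable def dgl (R : Type) [Ring R] (K : Type) [Group K] (S : Set X) :
    R →+ Matrix X X (MonoidAlgebra R K) where
  toFun r := Matrix.diagonal fun a => if a ∈ S then MonoidAlgebra.single (1 : K) r else 0
  map_zero' := by
    ext a b
    by_cases h : a = b
    · subst h
      simp
    · rw [Matrix.diagonal_apply_ne _ h]; rfl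
  map_add' r s := by
    ext1 a b
    by_cases h : a = b
    · subst h
      by_cases h2 : a ∈ S <;> simp [h2, MonoidAlgebra.single_add]
    · rw [Matrix.add_apply, Matrix.diagonal_apply_ne _ h, Matrix.diagonal_apply_ne _ h,
        Matrix.diagonal_apply_ne _ h, add_zero]

/-- The monomial matrix of `f`. -/
noncomputable def pmat (R : Type) [Ring R] (κ : Act F X K) (f : F) :
    Matrix X X (MonoidAlgebra R K) :=
  Matrix.of fun b a => if κ.σ f a = b then MonoidAlgebra.single (κ.c f a) 1 else 0

/-- The monomial matrices, restricted to `S`. -/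
noncomputable def monAdd (R : Type) [Ring R] (κ : Act F X K) (S : Set X) :
    MonoidAlgebra R F →+ Matrix X X (MonoidAlgebra R K) :=
  MonoidAlgebra.liftNC (dgl R K S) (pmat R κ)

open Classical in
theorem monAdd_single (κ : Act F X K) (S : Set X) (f : F) (r : R) (b a : X) :
    monAdd R κ S (MonoidAlgebra.single f r) b a =
      if κ.σ f a = b ∧ b ∈ S then MonoidAlgebra.single (κ.c f a) r else 0 := by
  unfold monAdd
  rw [MonoidAlgebra.liftNC_single]
  change (Matrix.diagonal (fun a => if a ∈ S then MonoidAlgebra.single (1 : K) r else 0) *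
    pmat R κ f) b a = _
  rw [Matrix.diagonal_mul]
  change (if b ∈ S then MonoidAlgebra.single (1 : K) r else 0) *
    (if κ.σ f a = b then MonoidAlgebra.single (κ.c f a) (1 : R) else 0) = _
  by_cases h1 : κ.σ f a = b
  · by_cases h2 : b ∈ S
    · rw [if_pos h2, if_pos h1, if_pos ⟨h1, h2⟩, MonoidAlgebra.single_mul_single, one_mul, mul_one]
    · rw [if_neg h2, zero_mul, if_neg (fun h => h2 h.2)]
  · rw [if_neg h1, mul_zero, if_neg (fun h => h1 h.1)]

/-- The set `S` is invariant. -/
def Inv (κ : Act F X K) (S : Set X) : Prop := ∀ f a, κ.σ f a ∈ S ↔ a ∈ S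

theorem monAdd_mul (κ : Act F X K) (S : Set X) (hS : Inv κ S) (x y : MonoidAlgebra R F) :
    monAdd R κ S (x * y) = monAdd R κ S x * monAdd R κ S y := by
  classical
  have h : ∀ (g : F) (r : R) (y : MonoidAlgebra R F),
      monAdd R κ S (MonoidAlgebra.single g r * y) =
        monAdd R κ S (MonoidAlgebra.single g r) * monAdd R κ S y := by
    intro g r y
    have h1 : (monAdd R κ S).comp (AddMonoidHom.mulLeft (MonoidAlgebra.single g r)) =
        (AddMonoidHom.mulLeft (monAdd R κ S (MonoidAlgebra.single g r))).comp (monAdd R κ S) := by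
      apply MonoidAlgebra.addMonoidHom_ext
      intro k s
      rw [AddMonoidHom.comp_apply, AddMonoidHom.comp_apply, AddMonoidHom.coe_mulLeft,
        AddMonoidHom.coe_mulLeft, MonoidAlgebra.single_mul_single]
      ext1 b a
      rw [Matrix.mul_apply, monAdd_single]
      rw [Finset.sum_eq_single (κ.σ k a)]
      · rw [monAdd_single, monAdd_single]
        have e : κ.σ (g * k) a = κ.σ g (κ.σ k a) := by rw [map_mul]; rfl
        rw [e]
        by_cases h1 : κ.σ g (κ.σ k a) = b
        · by_cases h2 : b ∈ S
          · have h3 : κ.σ k a ∈ S := by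
              rw [← h1] at h2
              exact (hS g _).1 h2
            rw [if_pos ⟨h1, h2⟩, if_pos ⟨h1, h2⟩, if_pos ⟨rfl, h3⟩,
              MonoidAlgebra.single_mul_single, κ.mul_c]
          · rw [if_neg (fun h => h2 h.2), if_neg (fun h => h2 h.2), zero_mul]
        · rw [if_neg (fun h => h1 h.1), if_neg (fun h => h1 h.1), zero_mul]
      · intro b' _ hb'
        rw [monAdd_single _ _ k s b' a, if_neg (fun h => hb' h.1.symm), mul_zero]
      · intro h
        exact absurd (Finset.mem_univ _) h
    exact DFunLike.congr_fun h1 y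
  have h2 : (monAdd R κ S).comp (AddMonoidHom.mulRight y) =
      (AddMonoidHom.mulRight (monAdd R κ S y)).comp (monAdd R κ S) := by
    apply MonoidAlgebra.addMonoidHom_ext
    intro k s
    simp only [AddMonoidHom.comp_apply, AddMonoidHom.coe_mulRight]
    exact h k s y
  exact DFunLike.congr_fun h2 x

/-- The homomorphism `R[F] → M_X(R[K])`, restricted to the invariant set `S`. -/
noncomputable def mon (R : Type) [Ring R] (κ : Act F X K) (S : Set X) (hS : Inv κ S) :
    MonoidAlgebra R F →ₙ+* Matrix X X (MonoidAlgebra R K) where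
  toFun := monAdd R κ S
  map_zero' := map_zero _
  map_add' := map_add _
  map_mul' := monAdd_mul κ S hS

open Classical in
theorem mon_single (κ : Act F X K) (S : Set X) (hS : Inv κ S) (f : F) (r : R) (b a : X) :
    mon R κ S hS (MonoidAlgebra.single f r) b a =
      if κ.σ f a = b ∧ b ∈ S then MonoidAlgebra.single (κ.c f a) r else 0 :=
  monAdd_single κ S f r b a

/-- The transfer on the invariant set `S`. -/
noncomputable def trS (R : Type) [Ring R] (κ : Act F X K) (S : Set X) (hS : Inv κ S) :
    KR R F →+ KR R K := (mor X (MonoidAlgebra R K)).comp (K1.map (mon R κ S hS))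

theorem inv_univ (κ : Act F X K) : Inv κ Set.univ := fun _ _ => Iff.rfl

/-- The transfer. -/
noncomputable def tr (R : Type) [Ring R] (κ : Act F X K) : KR R F →+ KR R K :=
  trS R κ Set.univ (inv_univ κ)

theorem mon_ext {T : Type} [Ring T] {f g : MonoidAlgebra R F →+ T}
    (h : ∀ (x : F) (r : R), f (MonoidAlgebra.single x r) = g (MonoidAlgebra.single x r))
    (x : MonoidAlgebra R F) : f x = g x := by
  have : f = g := MonoidAlgebra.addMonoidHom_ext h
  rw [this]

/-- Additivity. -/
theorem trS_union (κ : Act F X K) (S S' : Set X) (hS : Inv κ S) (hS' : Inv κ S')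
    (hU : Inv κ (S ∪ S')) (hd : Disjoint S S') (x : KR R F) :
    trS R κ (S ∪ S') hU x = trS R κ S hS x + trS R κ S' hS' x := by
  classical
  have h1 : ∀ x : MonoidAlgebra R F, mon R κ (S ∪ S') hU x = mon R κ S hS x + mon R κ S' hS' x := by
    intro x
    refine mon_ext (f := (mon R κ (S ∪ S') hU : MonoidAlgebra R F →+ _))
      (g := (mon R κ S hS : MonoidAlgebra R F →+ Matrix X X (MonoidAlgebra R K)) +
        (mon R κ S' hS' : MonoidAlgebra R F →+ Matrix X X (MonoidAlgebra R K))) ?_ x
    intro f r
    ext1 b a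
    change mon R κ (S ∪ S') hU (MonoidAlgebra.single f r) b a =
      (mon R κ S hS (MonoidAlgebra.single f r) b a + mon R κ S' hS' (MonoidAlgebra.single f r) b a)
    rw [mon_single, mon_single, mon_single]
    by_cases h1 : κ.σ f a = b
    · by_cases h2 : b ∈ S
      · have h3 : b ∉ S' := Set.disjoint_left.1 hd h2
        rw [if_pos ⟨h1, Or.inl h2⟩, if_pos ⟨h1, h2⟩, if_neg (fun h => h3 h.2), add_zero]
      · by_cases h3 : b ∈ S'
        · rw [if_pos ⟨h1, Or.inr h3⟩, if_neg (fun h => h2 h.2), if_pos ⟨h1, h3⟩, zero_add]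
        · rw [if_neg (fun h => h.2.elim h2 h3), if_neg (fun h => h2 h.2), if_neg (fun h => h3 h.2),
            add_zero]
    · rw [if_neg (fun h => h1 h.1), if_neg (fun h => h1 h.1), if_neg (fun h => h1 h.1), add_zero]
  have h2 : ∀ x y : MonoidAlgebra R F, mon R κ S hS x * mon R κ S' hS' y = 0 := by
    have hc : ∀ (T : Set X) (hT : Inv κ T) (z : MonoidAlgebra R F) (b a : X), b ∉ T →
        mon R κ T hT z b a = 0 := by
      intro T hT z b a hb
      let ev : Matrix X X (MonoidAlgebra R K) →+ MonoidAlgebra R K :=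
        { toFun := fun M => M b a, map_zero' := rfl, map_add' := fun _ _ => rfl }
      refine mon_ext (f := ev.comp (mon R κ T hT : MonoidAlgebra R F →+ _)) (g := 0) ?_ z
      intro f r
      change mon R κ T hT (MonoidAlgebra.single f r) b a = 0
      rw [mon_single, if_neg (fun h => hb h.2)]
    have hc2 : ∀ (T : Set X) (hT : Inv κ T) (z : MonoidAlgebra R F) (b a : X), a ∉ T →
        mon R κ T hT z b a = 0 := by
      intro T hT z b a hb
      let ev : Matrix X X (MonoidAlgebra R K) →+ MonoidAlgebra R K :=
        { toFun := fun M => M b a, map_zero' := rfl, map_add' := fun _ _ => rfl }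
      refine mon_ext (f := ev.comp (mon R κ T hT : MonoidAlgebra R F →+ _)) (g := 0) ?_ z
      intro f r
      change mon R κ T hT (MonoidAlgebra.single f r) b a = 0
      rw [mon_single, if_neg]
      rintro ⟨h1, h2⟩
      rw [← h1] at h2
      exact hb ((hT f a).1 h2)
    intro x y
    ext1 b a
    rw [Matrix.mul_apply, Matrix.zero_apply]
    apply Finset.sum_eq_zero
    intro k _
    by_cases hk : k ∈ S
    · rw [hc S' hS' y k a (Set.disjoint_left.1 hd hk), mul_zero]
    · rw [hc2 S hS x b k hk, zero_mul]
  unfold trS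
  rw [AddMonoidHom.comp_apply, AddMonoidHom.comp_apply, AddMonoidHom.comp_apply, ← map_add]
  congr 1
  exact K1.map_add' _ _ _ h1 h2 x

theorem trS_empty (κ : Act F X K) (h : Inv κ ∅) (x : KR R F) : trS R κ ∅ h x = 0 := by
  classical
  unfold trS
  rw [AddMonoidHom.comp_apply]
  have h0 : K1.map (mon R κ ∅ h) x = 0 := by
    apply map_zero_hom
    intro z
    refine mon_ext (f := (mon R κ ∅ h : MonoidAlgebra R F →+ Matrix X X (MonoidAlgebra R K)))
      (g := 0) ?_ z
    intro f r
    ext1 b a
    change mon R κ ∅ h (MonoidAlgebra.single f r) b a = 0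
    rw [mon_single, if_neg (fun h => h.2)]
  rw [h0, map_zero]

end Mon

end Pool.Agent.K6.H64.FQ
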