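import Pool.Agent.K6.H64.FQ.Sum
import Pool.Agent.K6.H64.FQ.Lam

/-!
Functoriality of the transfers, and the restriction to the whole group.
-/

set_option autoImplicit false
set_option linter.unusedSectionVars false

namespace Pool.Agent.K6.H64.FQ

open Matrix Pool.Agent.Y477.IW

section Unique

variable {S T : Type} [Ring S] [Ring T] {A : Type} [Fintype A] [DecidableEq A] [Unique A]

/-- The entry of a matrix of size one. -/
def ent (A : Type) [Fintype A] [Unique A] (S : Type) [Ring S] : Matrix A A S →ₙ+* S where
  toFun M := M default default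
  map_zero' := rfl
  map_add' _ _ := rfl
  map_mul' M N := by
    rw [Matrix.mul_apply, Fintype.sum_unique]

theorem mor_unique (x : K1 (Matrix A A S)) : mor A S x = K1.map (ent A S) x := by
  refine K1.hom_ext (fun n M => ?_) x
  let e : Fin n × A ↪ Fin n := (Equiv.prodUnique (Fin n) A).toEmbedding
  rw [mor_mk, K1.map_mk, ← cls_fin, ← cls_injR e, ← unzU_comp]
  have key : (injR S e).comp (flat (Fin n) A S) = mapR (Fin n) (ent A S) := by
    apply NonUnitalRingHom.ext
    intro X
    ext i j
    rw [NonUnitalRingHom.comp_apply]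
    have hi : i = e (i, default) := rfl
    have hj : j = e (j, default) := rfl
    conv_lhs => rw [hi, hj, injR_apply]
    rfl
  rw [key]

end Unique

section Pull

variable {R F P X K : Type} [Ring R] [Group F] [Group P] [Group K] [Fintype X] [DecidableEq X]

/-- The action of a group over `F`. -/
def Act.pull (κ : Act F X K) (p : P →* F) : Act P X K where
  σ := κ.σ.comp p
  c f a := κ.c (p f) a
  mul_c f h a := by
    rw [map_mul, κ.mul_c]
    rfl

theorem tr_pull (κ : Act F X K) (p : P →* F) (x : KR R P) :
    tr R κ (kh R p x) = tr R (κ.pull p) x := by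
  classical
  change mor X _ (K1.map (mon R κ Set.univ (inv_univ κ)) (K1.map (grm _ p) x)) =
    mor X _ (K1.map (mon R (κ.pull p) Set.univ (inv_univ _)) x)
  rw [← K1.map_comp']
  congr 2
  congr 1
  apply grm_ext
  intro f r
  rw [NonUnitalRingHom.comp_apply, grm_single]
  ext1 b a
  rw [mon_single, mon_single]
  rfl

theorem kh_comp {L : Type} [Group L] (g : K →* L) (f : F →* K) (x : KR R F) :
    kh R g (kh R f x) = kh R (g.comp f) x := km_comp _ g _ f x

theorem kh_id (x : KR R F) : kh R (MonoidHom.id F) x = x := km_id x

end Pull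

section Top

variable {R F : Type} [Ring R] [Group F] [Finite F]

theorem res_top (x : KR R F) : kh R (⊤ : Subgroup F).subtype (res R (⊤ : Subgroup F) x) = x := by
  classical
  let _ : Fintype (F ⧸ (⊤ : Subgroup F)) := Fintype.ofFinite _
  let _ : Unique (F ⧸ (⊤ : Subgroup F)) :=
    { default := QuotientGroup.mk 1
      uniq := fun a => (QuotientGroup.subsingleton_quotient_top).elim _ _ }
  let X := F ⧸ (⊤ : Subgroup F)
  let m := mon R (std F ⊤) Set.univ (inv_univ _)
  let ψ : MonoidAlgebra R (⊤ : Subgroup F) →ₙ+* MonoidAlgebra R F :=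
    grm (NonUnitalRingHom.id R) (⊤ : Subgroup F).subtype
  have h1 : kh R (⊤ : Subgroup F).subtype (res R (⊤ : Subgroup F) x) =
      K1.map ψ (mor X _ (K1.map m x)) := rfl
  rw [h1, ← mor_map, mor_unique, ← K1.map_comp', ← K1.map_comp']
  let o : F := (default : X).out
  let u : MonoidAlgebra R F := MonoidAlgebra.single o⁻¹ 1
  let v : MonoidAlgebra R F := MonoidAlgebra.single o 1
  have huv : u * v = 1 := by
    change MonoidAlgebra.single o⁻¹ 1 * MonoidAlgebra.single o 1 = 1
    rw [MonoidAlgebra.single_mul_single, inv_mul_cancel, mul_one]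
    rfl
  have hvu : v * u = 1 := by
    change MonoidAlgebra.single o 1 * MonoidAlgebra.single o⁻¹ 1 = 1
    rw [MonoidAlgebra.single_mul_single, mul_inv_cancel, mul_one]
    rfl
  rw [K1.map_conj' (NonUnitalRingHom.id (MonoidAlgebra R F)) _ u v huv hvu ?_ x]
  · exact K1.map_id' x
  · intro z
    refine mon_ext (f := ((ent X _).comp ((mapR X ψ).comp m) :
        MonoidAlgebra R F →+ MonoidAlgebra R F))
      (g := (AddMonoidHom.mulRight v).comp (AddMonoidHom.mulLeft u)) ?_ z
    intro f r
    change ψ (m (MonoidAlgebra.single f r) default default) =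
      u * MonoidAlgebra.single f r * v
    have hm : m (MonoidAlgebra.single f r) default default =
        MonoidAlgebra.single ((std F ⊤).c f default) r := by
      change mon R (std F ⊤) Set.univ (inv_univ _) (MonoidAlgebra.single f r) default default = _
      rw [mon_single, if_pos ⟨Subsingleton.elim _ _, Set.mem_univ _⟩]
    rw [hm]
    change grm _ _ (MonoidAlgebra.single _ r) = MonoidAlgebra.single o⁻¹ 1 *
      MonoidAlgebra.single f r * MonoidAlgebra.single o 1
    rw [grm_single, MonoidAlgebra.single_mul_single, MonoidAlgebra.single_mul_single, one_mul,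
      mul_one]
    have hd : f • (default : X) = default := Subsingleton.elim _ _
    have h2 : (⊤ : Subgroup F).subtype ((std F ⊤).c f default) = o⁻¹ * f * o := by
      change (f • (default : X)).out⁻¹ * (f * (default : X).out) = _
      rw [hd]
      exact (mul_assoc _ _ _).symm
    rw [h2]
    rfl

end Top

end Pool.Agent.K6.H64.FQ
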